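import Pool.Agent.Helper98.DISC.GoalsD

/-! Packet NUL. -/

open MeasureTheory Set Filter Topology

noncomputable section

namespace Pool.Agent.Helper84.DISC

open Pool.Agent.Helper98.DISC

theorem nul : S_NUL := by
  intro ι _ _ j A hA h
  let p : ι → Prop := fun i => i ≠ j
  have hp := volume_preserving_piEquivPiSubtypeProd (fun _ : ι => ℂ) p
  have hU : ∀ x : {i // ¬ p i}, x = ⟨j, fun h => h rfl⟩ := fun x => Subtype.ext (not_not.1 x.2)
  let U : Unique {i // ¬ p i} := { default := ⟨j, fun h => h rfl⟩, uniq := hU }
  set e := MeasurableEquiv.piEquivPiSubtypeProd (fun _ : ι => ℂ) p with he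
  have h1 : volume A = volume (e.symm ⁻¹' A) := (hp.symm.measure_preimage hA.nullMeasurableSet).symm
  rw [h1]
  have hm : MeasurableSet (e.symm ⁻¹' A) := e.symm.measurable hA
  change (volume.prod volume) (e.symm ⁻¹' A) = 0
  rw [Measure.measure_prod_null hm]
  refine Filter.Eventually.of_forall fun u => ?_
  let z : ι → ℂ := fun i => if hi : p i then u ⟨i, hi⟩ else 0
  have h2 : Prod.mk u ⁻¹' (e.symm ⁻¹' A) = (MeasurableEquiv.funUnique {i // ¬ p i} ℂ) ⁻¹'
      {t : ℂ | Function.update z j t ∈ A} := by
    ext v
    have h3 : e.symm (u, v) = Function.update z j (v default) := by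
      funext i
      by_cases hi : p i
      · rw [Function.update_of_ne hi]
        change (if h : p i then u ⟨i, h⟩ else v ⟨i, h⟩) = if hi : p i then u ⟨i, hi⟩ else 0
        rw [dif_pos hi, dif_pos hi]
      · have hij : i = j := not_not.1 hi
        subst hij
        rw [Function.update_self]
        change (if h : p i then u ⟨i, h⟩ else v ⟨i, h⟩) = v default
        rw [dif_neg hi]
        exact congrArg v (hU _)
    change e.symm (u, v) ∈ A ↔ Function.update z j (v default) ∈ A
    rw [h3]
  have h4 : MeasurableSet {t : ℂ | Function.update z j t ∈ A} :=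
    (measurable_update z) hA
  change volume (Prod.mk u ⁻¹' (e.symm ⁻¹' A)) = 0
  have key : ∀ F : Fintype {i // ¬ p i}, (@Measure.pi {i // ¬ p i} (fun _ => ℂ) F _
      (fun _ => volume)) ((MeasurableEquiv.funUnique {i // ¬ p i} ℂ) ⁻¹' {t : ℂ | Function.update z j t ∈ A}) =
        volume {t : ℂ | Function.update z j t ∈ A} := by
    intro F
    obtain rfl : F = Unique.fintype := Subsingleton.elim _ _
    exact (volume_preserving_funUnique {i // ¬ p i} ℂ).measure_preimage h4.nullMeasurableSet
  rw [h2]
  exact (key _).trans (h z)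

end Pool.Agent.Helper84.DISC
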